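import Pool.Agent.Q190.HP.Pub

/-!
# A countably infinite group with the Haagerup property and without the heat property
-/

set_option autoImplicit false

namespace Pool.Agent.Results.MP_94b6b1_an.HaagerupNotHeat

open Pool.Agent.Q190.HP

/-- **Answer to Q1.** There is a countably infinite group (for instance Thompson's group `F`) which
has the Haagerup property but not the heat property. -/
theorem result : ∃ (G : Type) (_ : Group G), Countable G ∧ Infinite G ∧
    HaagerupProperty G ∧ ¬ HasHeatProperty G :=
  ⟨thompsonF, inferInstance, countable_of_le _ (F_le_T.trans T_le_V), infinite_of_ge _ le_rfl,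
    haagerup_of_le _ (F_le_T.trans T_le_V), fun h => not_heat_F (heat_of_has h)⟩

end Pool.Agent.Results.MP_94b6b1_an.HaagerupNotHeat
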