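import Pool.Agent.Q190.HP.Pub

/-!
# Thompson's groups `F`, `T` and `V` do not have the heat property
-/

set_option autoImplicit false

namespace Pool.Agent.Results.MP_94b6b1_an.ThompsonNotHeat

open Pool.Agent.Q190.HP

/-- **Answer to Q2.** None of Thompson's groups `F`, `T`, `V` has the heat property. -/
theorem result :
    ¬ HasHeatProperty thompsonF ∧ ¬ HasHeatProperty thompsonT ∧ ¬ HasHeatProperty thompsonV :=
  ⟨fun h => not_heat_F (heat_of_has h), fun h => not_heat_T (heat_of_has h),
    fun h => not_heat_V (heat_of_has h)⟩

end Pool.Agent.Results.MP_94b6b1_an.ThompsonNotHeat
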